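import Mathlib
import Pool.Agent.X188.TrigB
import Pool.Agent.X188.ReExp

/-! The sine-to-cosine re-expansion operator is completely nonunitary. -/

set_option autoImplicit false
open MeasureTheory
open scoped InnerProductSpace
open Pool.Agent Pool.Agent.X188.TrigB Pool.Agent.X188.ReExp

namespace Pool.Agent.Results.MP_f617a8_an.CompletelyNonunitary

variable {E : Type} [NormedAddCommGroup E] [InnerProductSpace ℂ E] [CompleteSpace E]

/-- `T` is completely nonunitary: the zero subspace is the only closed subspace `M` that reduces `T`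
(`T M ⊆ M` and `T* M ⊆ M`) and on which `T` acts unitarily (isometrically and onto). -/
def IsCNU (T : E →L[ℂ] E) : Prop :=
  ∀ M : Submodule ℂ E, IsClosed (M : Set E) → (∀ x ∈ M, T x ∈ M) →
    (∀ x ∈ M, ContinuousLinearMap.adjoint T x ∈ M) →
    (∀ x ∈ M, ‖T x‖ = ‖x‖) → (∀ y ∈ M, ∃ x ∈ M, T x = y) → M = ⊥

/-- `P` is the re-expansion operator from `s` to `c`: `P f = ∑ₙ ⟨f, sₙ⟩ cₙ` for all `f`. -/
def IsReExpansion (s c : ℕ → E) (P : E →L[ℂ] E) : Prop :=
  ∀ f : E, HasSum (fun n : ℕ => ⟪s n, f⟫_ℂ • c n) (P f)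

/-- The re-expansion operator `P` from `s` to `c` exists, it is completely nonunitary, and the closed
linear span of `{Pⁿ e : n ≥ 0}` is the whole space. -/
structure ReExpansionIsCNU (s c : ℕ → E) (e : E) : Prop where
  ex : ∃ P : E →L[ℂ] E, IsReExpansion s c P
  cnu : ∀ P : E →L[ℂ] E, IsReExpansion s c P → IsCNU P
  dense : ∀ P : E →L[ℂ] E, IsReExpansion s c P →
    (Submodule.span ℂ {x | ∃ n : ℕ, (P ^ n) e = x}).topologicalClosure = ⊤

/-- The re-expansion operator `P` from the sines `s` to the cosines `c` on `L²(0,π)` is completely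
nonunitary, and the closed linear span of `{Pⁿ1 : n ≥ 0}` is all of `L²(0,π)`. -/
theorem result : ReExpansionIsCNU s c one := by
  have huniq : ∀ P : H →L[ℂ] H, IsReExpansion s c P → P = X188.ReExp.P.toContinuousLinearMap := by
    intro P hP
    ext1 f
    exact (hP f).unique (P_hasSum f)
  set Q := X188.ReExp.P.toContinuousLinearMap with hQ
  have hinner : ∀ (n : ℕ) (x y : H), ⟪(Q ^ n) x, (Q ^ n) y⟫_ℂ = ⟪x, y⟫_ℂ := by
    intro n
    induction n with
    | zero => intro x y; simp
    | succ n ih =>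
      intro x y
      rw [pow_succ]
      change ⟪(Q ^ n) (Q x), (Q ^ n) (Q y)⟫_ℂ = _
      rw [ih]
      exact X188.ReExp.P.inner_map_map x y
  refine ⟨⟨Q, P_hasSum⟩, fun P hP => ?_, fun P hP => ?_⟩
  · rw [huniq P hP]
    intro M _ _ _ _ hsurj
    rw [Submodule.eq_bot_iff]
    intro y hy
    apply complete
    intro n
    have hn : ∀ (n : ℕ), ∀ y ∈ M, ∃ x ∈ M, (Q ^ n) x = y := by
      intro n
      induction n with
      | zero => exact fun y hy => ⟨y, hy, by simp⟩
      | succ n ih =>
        intro y hy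
        obtain ⟨z, hz, hzy⟩ := ih y hy
        obtain ⟨x, hx, hxz⟩ := hsurj z hz
        refine ⟨x, hx, ?_⟩
        rw [pow_succ]
        change (Q ^ n) (Q x) = y
        rw [hxz, hzy]
    obtain ⟨x, hx, hxy⟩ := hn n y hy
    obtain ⟨z, hz, hzx⟩ := hsurj x hx
    rw [← hxy, hinner, ← hzx]
    exact inner_one_P z
  · rw [huniq P hP, Submodule.topologicalClosure_eq_top_iff, Submodule.eq_bot_iff]
    intro f hf
    apply complete
    intro n
    exact (Submodule.mem_orthogonal _ _).1 hf _ (Submodule.subset_span ⟨n, rfl⟩)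

end Pool.Agent.Results.MP_f617a8_an.CompletelyNonunitary
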